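import Pool.Agent.E8helper40.PF.Main
import Pool.Agent.E8helper14.PA.Count

/-!
# Tuples of rational points of a simple abelian variety: definitions for the zero-one law

`SimpleAbelianVariety p n` (without assumptions from transcendence theory), `closure`,
`ModulesAtLeast` and `Nonsplit` are in `Pool.Agent.E8helper40.PF.Defs`, `HasZpRank` is in
`Pool.Agent.E8helper40.PC.Top`.
-/

set_option autoImplicit false

open TensorProduct Module Pool.Agent.E8helper40.PF
open Pool.Agent.E8helper40.PC (HasZpRank)
open Pool.Agent.E8helper14.PA (box)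

namespace Pool.Agent.E8helper14.PZ

variable {p : ℕ} [Fact p.Prime] {n : ℕ} (A : SimpleAbelianVariety p n)

/-- The points `e_1, …, e_N` generate a subgroup of `A(ℚ)` with torsion quotient. -/
def Generates {N : ℕ} (e : Fin N → A.Pts) : Prop :=
  Submodule.span ℚ (Set.range fun j => (1 : ℚ) ⊗ₜ[ℤ] e j) = ⊤

/-- The subgroup generated by the points `∑_j k i j • e j + t i`, `i = 1, …, m`. -/
def tupleGroup {m N : ℕ} (e : Fin N → A.Pts) (t : Fin m → A.Pts) (k : Fin m → Fin N → ℤ) :
    AddSubgroup A.Pts :=
  AddSubgroup.closure (Set.range fun i => ∑ j, k i j • e j + t i)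

/-- For all torsion points `t_i`, the closure in `A(ℚ_p)` of the group generated by the `m` points
`∑_j k i j • e j + t i` is isomorphic to `ℤ_p ^ m` modulo finite torsion. -/
def GoodTuple {m N : ℕ} (e : Fin N → A.Pts) (k : Fin m → Fin N → ℤ) : Prop :=
  ∀ t : Fin m → A.Pts, (∀ i, IsOfFinAddOrder (t i)) → HasZpRank p (closure A (tupleGroup A e t k)) m

open Classical in
/-- The number of the `m × N` matrices of integers of absolute value at most `H` that do not give a
good tuple. -/
noncomputable def failures {N : ℕ} (e : Fin N → A.Pts) (m H : ℕ) : ℕ :=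
  ((box m N H).filter fun k => ¬ GoodTuple A e k).card

/-- The `ℤ_p`-rank of the closure of `A(ℚ)` is `ρ`. -/
def ClosureRank (ρ : ℕ) : Prop := HasZpRank p (closure A ⊤) ρ

/-- For all `m ≤ d` the proportion of the `m`-tuples that are not good is at most
`m (2 H + 1) ^ (- (d + 1 - m))`. -/
def AlmostAll {N : ℕ} (e : Fin N → A.Pts) (d : ℕ) : Prop :=
  ∀ m H : ℕ, m ≤ d → failures A e m H * (2 * H + 1) ^ (d + 1 - m) ≤ m * (box m N H).card

/-- The `ℤ_p`-rank of the closure of a subgroup `L` of `A(ℚ)` is never larger than `d`. -/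
def NoneAbove (d : ℕ) : Prop :=
  ∀ (L : AddSubgroup A.Pts) (r : ℕ), HasZpRank p (closure A L) r → r ≤ d

/-- There are points of infinite order in `A(ℚ)`. -/
def InfinitelyManyPoints : Prop := ∃ x : A.Pts, ¬ IsOfFinAddOrder x

end Pool.Agent.E8helper14.PZ
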