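import Pool.Agent.E8helper14.PZ.Defs

/-!
# The zero-one law for tuples of rational points of a simple abelian variety
-/

set_option autoImplicit false

open TensorProduct Module Pool.Agent.E8helper40.PF
open Pool.Agent.E8helper40.PC (HasZpRank exists_rank)
open Pool.Agent.E8helper14.PA (box icomb relSpace mem_relSpace count_dependent card_box
  finrank_span_Iio)

namespace Pool.Agent.E8helper14.PZ

section Linear

variable {K V : Type*} [Field K] [CharZero K] [AddCommGroup V] [Module K V] [Module ℚ V]
  [IsScalarTower ℚ K V]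

/-- The rational combinations of the `φ l` in `W` form a space of dimension at most
`N - dim span φ + dim W`. -/
lemma relSpace_le [Module.Finite K V] {N : ℕ} (φ : Fin N → V) (W : Submodule K V) :
    finrank ℚ (relSpace φ W) + finrank K (Submodule.span K (Set.range φ)) ≤ N + finrank K W := by
  classical
  let Φ : (Fin N → K) →ₗ[K] V ⧸ W := W.mkQ.comp (Fintype.linearCombination K φ)
  have h1 : finrank K (LinearMap.range Φ) + finrank K (LinearMap.ker Φ) = N := by
    rw [LinearMap.finrank_range_add_finrank_ker, Module.finrank_fin_fun]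
  have h2 : finrank ℚ (relSpace φ W) ≤ finrank K (LinearMap.ker Φ) := by
    let b := Module.finBasis ℚ (relSpace φ W)
    have hb : LinearIndependent ℚ fun i => ((b i : relSpace φ W) : Fin N → ℚ) :=
      b.linearIndependent.map' (relSpace φ W).subtype (Submodule.ker_subtype _)
    have hb' : LinearIndependent K fun i => algebraMap ℚ K ∘ ((b i : relSpace φ W) : Fin N → ℚ) :=
      linearIndependent_algebraMap_comp_iff.2 hb
    have hmem : ∀ i, algebraMap ℚ K ∘ ((b i : relSpace φ W) : Fin N → ℚ) ∈ LinearMap.ker Φ := by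
      intro i
      rw [LinearMap.mem_ker, LinearMap.comp_apply, Submodule.mkQ_apply,
        Submodule.Quotient.mk_eq_zero, Fintype.linearCombination_apply]
      have h3 := (mem_relSpace φ W _).1 (b i).2
      have h4 : ∑ l, (algebraMap ℚ K ∘ ((b i : relSpace φ W) : Fin N → ℚ)) l • φ l =
          ∑ l, ((b i : relSpace φ W) : Fin N → ℚ) l • φ l := by
        refine Finset.sum_congr rfl fun l _ => ?_
        rw [Function.comp_apply, algebraMap_smul]
      rw [h4]
      exact h3
    have h5 : LinearIndependent K fun i => (⟨_, hmem i⟩ : LinearMap.ker Φ) :=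
      LinearIndependent.of_comp (LinearMap.ker Φ).subtype hb'
    have h6 := h5.fintype_card_le_finrank
    rwa [Fintype.card_fin] at h6
  have h3 : finrank K (Submodule.span K (Set.range φ)) ≤
      finrank K (LinearMap.range Φ) + finrank K W := by
    set U := Submodule.span K (Set.range φ) with hU
    let g : U →ₗ[K] V ⧸ W := W.mkQ.comp U.subtype
    have h7 := LinearMap.finrank_range_add_finrank_ker g
    have h8 : finrank K (LinearMap.ker g) ≤ finrank K W := by
      let ι : LinearMap.ker g →ₗ[K] W :=
        (U.subtype.comp (LinearMap.ker g).subtype).codRestrict W (by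
          rintro ⟨x, hx⟩
          have : W.mkQ (x : V) = 0 := hx
          rwa [Submodule.mkQ_apply, Submodule.Quotient.mk_eq_zero] at this)
      refine LinearMap.finrank_le_finrank_of_injective (f := ι) ?_
      intro x y hxy
      exact Subtype.ext (Subtype.ext (congrArg (fun z : W => (z : V)) hxy))
    have h9 : finrank K (LinearMap.range g) ≤ finrank K (LinearMap.range Φ) := by
      refine Submodule.finrank_mono ?_
      rintro _ ⟨x, rfl⟩
      have hx : (x : V) ∈ LinearMap.range (Fintype.linearCombination K φ) := by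
        rw [Fintype.range_linearCombination K φ]
        exact x.2
      obtain ⟨c, hc⟩ := hx
      exact ⟨c, by rw [LinearMap.comp_apply, hc]; rfl⟩
    omega
  omega

end Linear

variable {p : ℕ} [Fact p.Prime] {n : ℕ} (A : SimpleAbelianVariety p n)

/-- The logarithms of the points. -/
noncomputable def logs {N : ℕ} (e : Fin N → A.Pts) : Fin N → Fin n → ℚ_[p] :=
  fun j => A.log (A.incl (e j))

lemma log_of_torsion {t : A.Pts} (ht : IsOfFinAddOrder t) : A.log (A.incl t) = 0 := by
  obtain ⟨N, hN, h⟩ := isOfFinAddOrder_iff_nsmul_eq_zero.1 ht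
  have h1 : N • A.log (A.incl t) = 0 := by
    rw [← map_nsmul, ← map_nsmul, h, map_zero, map_zero]
  exact (smul_eq_zero.1 h1).resolve_left hN.ne'

lemma log_point {N : ℕ} (e : Fin N → A.Pts) (k : Fin N → ℤ) {t : A.Pts} (ht : IsOfFinAddOrder t) :
    A.log (A.incl (∑ j, k j • e j + t)) = icomb (logs A e) k := by
  rw [map_add, map_add, log_of_torsion A ht, add_zero, map_sum, map_sum, icomb]
  refine Finset.sum_congr rfl fun j _ => ?_
  rw [map_zsmul, map_zsmul, logs]

/-- The span of the logarithms of the group generated by a set. -/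
lemma logSpan_closure (S : Set A.Pts) :
    logSpan A (AddSubgroup.closure S) = Submodule.span ℚ_[p] ((fun x => A.log (A.incl x)) '' S) := by
  apply le_antisymm
  · rw [logSpan, Submodule.span_le]
    rintro _ ⟨x, hx, rfl⟩
    change A.log (A.incl x) ∈ _
    induction hx using AddSubgroup.closure_induction with
    | mem x hx => exact Submodule.subset_span ⟨x, hx, rfl⟩
    | zero =>
      rw [map_zero, map_zero]
      exact Submodule.zero_mem _
    | add x y _ _ hx hy =>
      rw [map_add, map_add]
      exact Submodule.add_mem _ hx hy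
    | neg x _ hx =>
      rw [map_neg, map_neg]
      exact Submodule.neg_mem _ hx
  · rw [logSpan]
    refine Submodule.span_mono ?_
    rintro _ ⟨x, hx, rfl⟩
    exact ⟨x, AddSubgroup.subset_closure hx, rfl⟩

lemma hasZpRank_logSpan (L : AddSubgroup A.Pts) :
    HasZpRank p (closure A L) (finrank ℚ_[p] (logSpan A L)) := by
  obtain ⟨r, hr⟩ := exists_rank (p := p) A.core A.core_open A.coreEquiv (closure A L)
    (AddSubgroup.isClosed_topologicalClosure _)
  have hr1 := rank_closure A L hr
  rwa [← hr1]

/-- Good tuples are those with independent logarithms. -/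
lemma good_iff {m N : ℕ} (e : Fin N → A.Pts) (k : Fin m → Fin N → ℤ) :
    GoodTuple A e k ↔ LinearIndependent ℚ_[p] fun i => icomb (logs A e) (k i) := by
  have key : ∀ t : Fin m → A.Pts, (∀ i, IsOfFinAddOrder (t i)) →
      logSpan A (tupleGroup A e t k) =
        Submodule.span ℚ_[p] (Set.range fun i => icomb (logs A e) (k i)) := by
    intro t ht
    rw [tupleGroup, logSpan_closure, ← Set.range_comp]
    congr 2
    funext i
    exact log_point A e (k i) (ht i)
  constructor
  · intro h
    have h0 : ∀ i : Fin m, IsOfFinAddOrder ((fun _ => 0 : Fin m → A.Pts) i) := fun i =>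
      IsOfFinAddOrder.zero
    have h1 := rank_closure A _ (h _ h0)
    rw [key _ h0] at h1
    rw [linearIndependent_iff_card_eq_finrank_span, Fintype.card_fin]
    exact h1
  · intro h t ht
    have h1 := hasZpRank_logSpan A (tupleGroup A e t k)
    rw [key t ht, finrank_span_eq_card h, Fintype.card_fin] at h1
    exact h1

/-- The logarithms of generating points span the same space as those of all points. -/
lemma logSpan_top {N : ℕ} (e : Fin N → A.Pts) (hg : Generates A e) :
    logSpan A ⊤ = Submodule.span ℚ_[p] (Set.range (logs A e)) := by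
  apply le_antisymm
  · rw [logSpan, Submodule.span_le]
    rintro _ ⟨x, -, rfl⟩
    have h1 : (1 : ℚ) ⊗ₜ[ℤ] x ∈ Submodule.span ℚ (Set.range fun j => (1 : ℚ) ⊗ₜ[ℤ] e j) := by
      rw [hg]
      trivial
    have h2 := Submodule.mem_map_of_mem (f := extend (A.log.comp A.incl)) h1
    rw [extend_tmul, one_smul, Submodule.map_span, ← Set.range_comp] at h2
    have h3 : (extend (A.log.comp A.incl)) ∘ (fun j => (1 : ℚ) ⊗ₜ[ℤ] e j) = logs A e := by
      funext j
      rw [Function.comp_apply, extend_tmul, one_smul]
      rfl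
    rw [h3] at h2
    exact Submodule.span_le_restrictScalars ℚ ℚ_[p] _ h2
  · rw [Submodule.span_le]
    rintro _ ⟨j, rfl⟩
    exact Submodule.subset_span ⟨e j, trivial, rfl⟩

theorem zero_one {N : ℕ} (e : Fin N → A.Pts) (hg : Generates A e) {ρ : ℕ}
    (hρ : ClosureRank A ρ) : AlmostAll A e ρ ∧ NoneAbove A ρ := by
  classical
  have hρ1 : ρ = finrank ℚ_[p] (Submodule.span ℚ_[p] (Set.range (logs A e))) := by
    rw [← logSpan_top A e hg]
    exact rank_closure A ⊤ hρ
  have hρN : ρ ≤ N := by
    rw [hρ1]
    exact (finrank_range_le_card _).trans (Fintype.card_fin _).le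
  refine ⟨fun m H hm => ?_, fun L r hr => ?_⟩
  · rcases Nat.eq_zero_or_pos m with rfl | hm0
    · have h0 : failures A e 0 H = 0 := by
        unfold failures
        rw [Finset.card_eq_zero, Finset.filter_eq_empty_iff]
        intro k _ hk
        exact hk ((good_iff A e k).2 linearIndependent_empty_type)
      rw [h0, zero_mul]
      exact Nat.zero_le _
    have h1 : failures A e m H = ((box m N H).filter fun k =>
        ¬ LinearIndependent ℚ_[p] fun i => icomb (logs A e) (k i)).card := by
      unfold failures
      congr 1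
      exact Finset.filter_congr fun k _ => not_congr (good_iff A e k)
    have h2 := count_dependent (K := ℚ_[p]) (m := m) (H := H) (logs A e) (N - ρ + (m - 1))
      fun i k => by
        have h3 := relSpace_le (K := ℚ_[p]) (logs A e)
          (Submodule.span ℚ_[p] ((fun j => icomb (logs A e) (k j)) '' Set.Iio i))
        have h4 := finrank_span_Iio (K := ℚ_[p]) (fun j => icomb (logs A e) (k j)) i
        rw [← hρ1] at h3
        omega
    rw [h1, card_box]
    refine (Nat.mul_le_mul_right _ h2).trans ?_
    rw [mul_assoc, ← pow_add]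
    refine Nat.mul_le_mul_left _ (Nat.pow_le_pow_right (by omega) ?_)
    obtain ⟨a, rfl⟩ : ∃ a, m = a + 1 := ⟨m - 1, by omega⟩
    rw [Nat.add_sub_cancel, Nat.add_mul, one_mul]
    omega
  · rw [rank_closure A L hr, rank_closure A ⊤ hρ]
    refine Submodule.finrank_mono ?_
    rw [logSpan, logSpan]
    refine Submodule.span_mono ?_
    rintro _ ⟨x, -, rfl⟩
    exact ⟨x, trivial, rfl⟩

/-- The closure of an infinite group `A(ℚ)` has rank at least `μ`. -/
theorem mu_le {N : ℕ} (e : Fin N → A.Pts) (hg : Generates A e) {v : ℚ ⊗[ℤ] A.Pts} (hv : v ≠ 0)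
    {μ : ℕ} (hμ : ModulesAtLeast A μ) {ρ : ℕ} (hρ : ClosureRank A ρ) : μ ≤ ρ := by
  set L : AddSubgroup A.Pts := AddSubgroup.closure (Set.range e) with hL
  have hLfg : L.FG := ⟨(Set.finite_range e).toFinset, by rw [Set.Finite.coe_toFinset]⟩
  have hspan : ratSpan A L = ⊤ := by
    rw [eq_top_iff, ← hg, Submodule.span_le]
    rintro _ ⟨j, rfl⟩
    exact Submodule.subset_span ⟨e j, AddSubgroup.subset_closure ⟨j, rfl⟩, rfl⟩
  have hlog : logSpan A L = logSpan A ⊤ := by
    rw [logSpan_top A e hg, hL, logSpan_closure, ← Set.range_comp]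
    rfl
  have hr : HasZpRank p (closure A L) ρ := by
    have h1 := hasZpRank_logSpan A L
    rw [hlog, ← rank_closure A ⊤ hρ] at h1
    exact h1
  have h2 := line_bound A L hLfg hμ hv hr
  rw [hspan, top_inf_eq] at h2
  have h3 : finrank ℚ (line A v) = finrank ℚ A.End := by
    let ι : A.End →ₗ[ℚ] line A v :=
      { toFun := fun δ => ⟨δ • v, Submodule.mem_span_singleton.2 ⟨δ, rfl⟩⟩
        map_add' := fun x y => Subtype.ext (add_smul x y v)
        map_smul' := fun c x => Subtype.ext (by
          change (c • x) • v = c • (x • v)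
          rw [smul_assoc]) }
    have hbij : Function.Bijective ι := by
      constructor
      · intro x y hxy
        have h4 : x • v = y • v := congrArg (fun z : line A v => (z : ℚ ⊗[ℤ] A.Pts)) hxy
        have h5 : (x - y) • v = 0 := by rw [sub_smul, h4, sub_self]
        rcases smul_eq_zero.1 h5 with h6 | h6
        · exact sub_eq_zero.1 h6
        · exact absurd h6 hv
      · rintro ⟨w, hw⟩
        obtain ⟨δ, hδ⟩ := Submodule.mem_span_singleton.1 hw
        exact ⟨δ, Subtype.ext hδ⟩
    exact (LinearEquiv.ofBijective ι hbij).finrank_eq.symm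
  rw [h3] at h2
  omega

lemma AlmostAll.mono {N : ℕ} {e : Fin N → A.Pts} {d ρ : ℕ} (h : AlmostAll A e ρ) (hd : d ≤ ρ) :
    AlmostAll A e d := by
  intro m H hm
  refine le_trans (Nat.mul_le_mul_left _ (Nat.pow_le_pow_right (by omega) ?_))
    (h m H (hm.trans hd))
  omega

lemma exists_ne_zero (h : InfinitelyManyPoints A) : ∃ v : ℚ ⊗[ℤ] A.Pts, v ≠ 0 := by
  obtain ⟨x, hx⟩ := h
  refine ⟨(1 : ℚ) ⊗ₜ[ℤ] x, fun h0 => hx ?_⟩
  have h1 : A.log (A.incl x) = 0 := by
    have h2 : extend (A.log.comp A.incl) ((1 : ℚ) ⊗ₜ[ℤ] x) = A.log (A.incl x) := by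
      rw [extend_tmul, one_smul]
      rfl
    rw [← h2, h0, map_zero]
  obtain ⟨M, hM, hM0⟩ := A.log_torsion _ h1
  refine isOfFinAddOrder_iff_nsmul_eq_zero.2 ⟨M, hM, A.incl_injective ?_⟩
  rw [map_nsmul, hM0, map_zero]

end Pool.Agent.E8helper14.PZ
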